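import Pool.Agent.TH103.BL.EigC

set_option autoImplicit false

/-!
# Billiards in almost every convex polygon: no eigenfunctions with limits at the vertices

A mixing flow has no nonconstant measurable eigenfunction, a topologically mixing flow no
nonconstant continuous one. For almost every convex polygon this necessary condition is proved for
all measurable eigenfunctions which have one-sided limits at the vertices, uniformly in the
direction up to null sets, or which extend continuously to the closed polygon.

The definitions `IsEigenfunction`, `HasOneSidedLimits`, `HasIrrationalRatio` are in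
`Pool.Agent.TH103.BL.EigD`.
-/

namespace Pool.Agent.Results.MP_fc28e0_an.NoVertexLimitEigenfunctions

open Pool.Agent.W780 Pool.Agent.W780.BB Pool.Agent.W780.PG MeasureTheory Pool.Agent.TH103.BL

open scoped Real

theorem result (n : ℕ) :
    (∀ᵐ p : Fin (n + 3) → ℂ, IsConvexPolygon p →
      (∀ i, Irrational (ang p i / π)) ∧ HasIrrationalRatio p) ∧
    ∀ p : Fin (n + 3) → ℂ, IsConvexPolygon p → (∀ i, Irrational (ang p i / π)) →
      HasIrrationalRatio p → ∀ (lam : ℝ) (f : ℂ × ℝ → ℂ), Measurable f →
        IsEigenfunction p lam f →
        HasOneSidedLimits p f ∨ ContinuousOn f (closure (region p) ×ˢ Set.univ) →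
          ∃ c : ℂ, (∀ᵐ x : ℂ × ℝ, x.1 ∈ region p → f x = c) ∧ (lam ≠ 0 → c = 0) :=
  ⟨generic_ae n, fun _ hp hirr hrat _ _ hf hE h => h.elim
    (eig_sided hp hirr hrat hf hE)
    fun hc => eig_main hp hirr hrat hf hE (limits_of_cont hp hE hc)⟩

end Pool.Agent.Results.MP_fc28e0_an.NoVertexLimitEigenfunctions
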